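import Pool.Agent.U548.CC.Half

/-!
# Slice discs composed of parts of small curvature are ribbon

Earlier results (`CurvatureOfRibbonDiscs`, `WillmoreSliceDiscs`) say that a slice disc of small total
curvature can be replaced by a ribbon disc. Here the curvature has to be small only in each of the
parts into which the disc is cut by horizontal levels, so that the total curvature may be arbitrarily
large.

The discs `F` are smoothly embedded in the half-space `x₃ ≥ 0` of Euclidean four-space, with boundary
`K` in the hyperplane `x₃ = 0` and vertical near the boundary; `Disc K F` says this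
(`HCls (closedBall 0 1) K F` of the library, surfaces homeomorphic to the closed disc). A disc is a
ribbon disc if the height `x₃` is a Morse function on it (`MorseS`) which has no local minimum in the
interior (in the 4-ball: the distance from the centre has no local maximum); `nminS` is the number of
these local minima. `Levels F n t`: the levels `0 = t 0 < t 1 < … < t n < t (n + 1)` are such that `F`
is below the last one and vertical near `t 1, …, t n`. So they cut `F` into `n + 1` parts, which are
surfaces of any topological type between two links. The lower total curvature `lowP F a b` of the part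
between the levels `a` and `b` is the integral, over this part and over the unit normal vectors `n`
with `n₃ > 0`, of the determinant of the second fundamental form `II_n`, taken where `II_n` is
positive definite; `wilP F a b` is the Willmore energy `∫ |H|²` of the part, where `H` is the mean
curvature vector (half of the trace of the second fundamental form).

1. For every `K` and `M`: `K` bounds a disc with a Morse height with at most `M` local minima if and
   only if `K` bounds a disc `F` which is cut by levels into parts of lower total curvature less than
   `π² (m 0 + 1)`, …, `π² (m n + 1)` with `m 0 + … + m n ≤ M`. In particular `K` bounds a ribbon disc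
   if and only if it bounds a disc which is composed of (any number of) parts each of which has
   lower total curvature less than `π²`.
2. If a disc with boundary `K` is cut into parts of Willmore energy less than `2 π (m i + 1)` with
   `m 0 + … + m n ≤ M + 1`, then `K` bounds a disc with a Morse height with at most `M` local minima.
   For example, `K` is ribbon if all parts have Willmore energy less than `2 π`, except for one part,
   where it is less than `4 π`.
3. Let `A` be a surface in a slab (`Cob A H`) between `K` and `J`, of lower total curvature less than
   `π² (m + 1)`, and let `J` bound a surface `G` with a Morse height with `nminS G` local minima, such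
   that `A` and `G` together are a disc (for instance: `A` is a concordance and `G` is a disc). Then
   `K` bounds a disc with a Morse height with at most `m + nminS G` local minima. So knots which are
   joined to ribbon knots by concordances of lower total curvature less than `π²` are ribbon.

The theorem for one slab (`Pool.Agent.N15.SF`, helper15 and others, and `Pool.Agent.N503.WS`,
helper503) is applied to the parts; new is the composition of surfaces in slabs along vertical
collars: charts at the seams, Morse heights, the behaviour of the extrema and of the topological type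
relative to the boundary (`Pool.Agent.U548.CC`).
-/

set_option autoImplicit false

namespace Pool.Agent.Results.MP_752436_gt.ComposedSliceDiscs

open scoped ENNReal NNReal
open Pool.Agent.N15.SF Pool.Agent.Y503.RB Pool.Agent.N503.WI Pool.Agent.U548.CC
open MeasureTheory Metric

/-- `F` is a smoothly embedded disc in the half-space `x₃ ≥ 0` with boundary `K` in `x₃ = 0`, vertical
near the boundary. -/
def Disc (K F : Set E4) : Prop := HCls (closedBall (0 : ℂ) 1) K F

theorem result :
    -- (1) lower total curvature of the parts
    (∀ (K : Set E4) (M : ℕ),
      (∃ F, Disc K F ∧ MorseS F ∧ nminS F ≤ M) ↔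
        ∃ (F : Set E4) (n : ℕ) (t : ℕ → ℝ) (m : ℕ → ℕ), Disc K F ∧ Levels F n t ∧
          ∑ i ∈ Finset.range (n + 1), m i ≤ M ∧
          ∀ i ≤ n, lowP F (t i) (t (i + 1)) < ENNReal.ofReal (Real.pi ^ 2 * (m i + 1))) ∧
    (∀ K : Set E4,
      (∃ F, Disc K F ∧ MorseS F ∧ nminS F = 0) ↔
        ∃ (F : Set E4) (n : ℕ) (t : ℕ → ℝ), Disc K F ∧ Levels F n t ∧
          ∀ i ≤ n, lowP F (t i) (t (i + 1)) < ENNReal.ofReal (Real.pi ^ 2)) ∧
    -- (2) Willmore energy of the parts
    (∀ (K F : Set E4) (n : ℕ) (t : ℕ → ℝ) (m : ℕ → ℕ) (M : ℕ), Disc K F → Levels F n t →
      ∑ i ∈ Finset.range (n + 1), m i ≤ M + 1 →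
      (∀ i ≤ n, wilP F (t i) (t (i + 1)) < ENNReal.ofReal (2 * Real.pi * (m i + 1))) →
      ∃ F', Disc K F' ∧ MorseS F' ∧ nminS F' ≤ M) ∧
    -- (3) cobordisms of small lower total curvature
    (∀ (A G : Set E4) (H : ℝ) (m : ℕ), Cob A H → HSurf G → MorseS G → Match A H G →
      Nonempty ((A ∪ up H G : Set E4) ≃ₜ closedBall (0 : ℂ) 1) →
      lowF A H < ENNReal.ofReal (Real.pi ^ 2 * (m + 1)) →
      ∃ F', Disc (A ∩ {x | x 3 = 0}) F' ∧ MorseS F' ∧ nminS F' ≤ m + nminS G) := by
  refine ⟨fun K M => half_iff _ K M, fun K => ?_, fun K F n t m M h1 h2 h3 h4 =>
    half_wil_ribbon _ K F n t m M h1 h2 h3 h4, fun A G H m h1 h2 h3 h4 h5 h6 =>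
    cobordism_low A G H m h1 h2 h3 h4 h6 _ h5⟩
  have h := half_iff (closedBall (0 : ℂ) 1) K 0
  constructor
  · rintro ⟨F, h1, h2, h3⟩
    obtain ⟨F', n, t, m, a1, a2, a3, a4⟩ := h.1 ⟨F, h1, h2, by rw [h3]; exact bot_le⟩
    refine ⟨F', n, t, a1, a2, fun i hi => ?_⟩
    have h5 : m i = 0 := by
      have h6 := Finset.single_le_sum (f := m) (fun j _ => Nat.zero_le _)
        (Finset.mem_range.2 (show i < n + 1 by omega))
      omega
    have h6 := a4 i hi
    rw [h5] at h6
    simpa using h6
  · rintro ⟨F, n, t, a1, a2, a3⟩
    obtain ⟨F', b1, b2, b3⟩ := h.2 ⟨F, n, t, fun _ => 0, a1, a2, by simp, fun i hi => by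
      simpa using a3 i hi⟩
    exact ⟨F', b1, b2, nonpos_iff_eq_zero.1 (by simpa using b3)⟩

end Pool.Agent.Results.MP_752436_gt.ComposedSliceDiscs
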