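import Pool.Agent.U1.HM

/-!
# Slice discs of small mean curvature in hyperbolic four-space are ribbon

Let `φ` be a slice disc in the unit ball of four-space (smoothly embedded up to the boundary,
transversal to the unit sphere), seen in the hyperbolic metric `4 |dx|² / (1 - |x|²)²` of the ball.
`H` is its hyperbolic mean curvature vector (half of the trace of the second fundamental form),
`r` the hyperbolic distance from the origin.

* `excess φ` is the integral over the disc (hyperbolic area) of `exp (3 r) ((|H| - 1)_+)²`;
* `excessDir φ` is the integral over the disc and over the circles of unit normal vectors `n` of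
  `P³ ((H·n - 1)_+)²`, where `P ≤ exp r` is the Poisson kernel of the point `-n` of the sphere.

The number `1` is the mean curvature of horospheres. The following holds:

1. the total horospherical curvature of the disc is at most `excessDir φ`, and
   `excessDir φ ≤ (π / 2) excess φ`;
2. if `excessDir φ < 2 π² (m + 1)` or `excess φ < 4 π (m + 1)`, then a diffeomorphism of the ball
   minus a boundary point, which is the identity on the sphere, turns the disc into a slice disc with
   the same boundary on which the distance from the origin is a Morse function with at most `m`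
   local maxima in the interior (for `m = 0` this is the standard description of ribbon discs);
3. in particular a slice disc with `|H| ≤ 1` everywhere is turned into a ribbon disc.

The theorem on the total horospherical curvature is the theorem `disc` of the starting library
(`Pool.Agent.Y503.RB`); new are the comparison of the horospherical curvature with the hyperbolic
mean curvature and its consequences.
-/

set_option autoImplicit false

namespace Pool.Agent.Results.MP_752436_gt.HyperbolicMeanCurvature

open scoped ENNReal
open Pool.Agent.Y503.RB Pool.Agent.U1.HM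
open MeasureTheory Metric

theorem result (φ : ℂ → E4) (h : SliceDisc φ) :
    -- (1) comparison of the curvatures
    (∫⁻ z in ball (0 : ℂ) 1, curvAt φ z ≤ excessDir φ ∧
      excessDir φ ≤ ENNReal.ofReal (Real.pi / 2) * excess φ) ∧
    -- (2) the number of local maxima
    (∀ m : ℕ, (excessDir φ < ENNReal.ofReal (2 * Real.pi ^ 2 * (m + 1)) ∨
        excess φ < ENNReal.ofReal (4 * Real.pi * (m + 1))) →
      ∃ ξ : E4, ‖ξ‖ = 1 ∧ (∀ z ∈ closedBall (0 : ℂ) 1, φ z ≠ ξ) ∧
        SliceDisc (fun w => push ξ (φ w)) ∧
        (∀ z ∈ sphere (0 : ℂ) 1, push ξ (φ z) = φ z) ∧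
        MorseDisc (fun w => push ξ (φ w)) m) ∧
    -- (3) mean curvature at most one
    ((∀ z ∈ ball (0 : ℂ) 1, ‖hypMean φ z‖ ≤ 1) →
      ∃ ξ : E4, ‖ξ‖ = 1 ∧ (∀ z ∈ closedBall (0 : ℂ) 1, φ z ≠ ξ) ∧
        SliceDisc (fun w => push ξ (φ w)) ∧
        (∀ z ∈ sphere (0 : ℂ) 1, push ξ (φ z) = φ z) ∧
        MorseDisc (fun w => push ξ (φ w)) 0) := by
  have hi := h.patch.imm
  have hp := h.inside
  have h1 := curv_le_dir hi hp
  have h2 := dir_le hp
  have hpi := Real.pi_pos
  have key : ∀ m : ℕ, (excessDir φ < ENNReal.ofReal (2 * Real.pi ^ 2 * (m + 1)) ∨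
        excess φ < ENNReal.ofReal (4 * Real.pi * (m + 1))) →
      ∃ ξ : E4, ‖ξ‖ = 1 ∧ (∀ z ∈ closedBall (0 : ℂ) 1, φ z ≠ ξ) ∧
        SliceDisc (fun w => push ξ (φ w)) ∧
        (∀ z ∈ sphere (0 : ℂ) 1, push ξ (φ z) = φ z) ∧
        MorseDisc (fun w => push ξ (φ w)) m := by
    intro m hm
    refine disc φ h m (h1.trans_lt ?_)
    rcases hm with hm | hm
    · exact hm
    · refine h2.trans_lt ?_
      have e : ENNReal.ofReal (2 * Real.pi ^ 2 * (m + 1)) =
          ENNReal.ofReal (Real.pi / 2) * ENNReal.ofReal (4 * Real.pi * (m + 1)) := by
        rw [← ENNReal.ofReal_mul (by positivity)]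
        congr 1
        ring
      rw [e]
      refine (ENNReal.mul_lt_mul_iff_right ?_ ENNReal.ofReal_ne_top).2 hm
      rw [Ne, ENNReal.ofReal_eq_zero, not_le]
      positivity
  refine ⟨⟨h1, h2⟩, key, fun hH => key 0 (Or.inr ?_)⟩
  have h0 : excess φ = 0 := by
    unfold excess
    refine (setLIntegral_congr_fun (g := fun _ => 0) isOpen_ball.measurableSet ?_).trans (by simp)
    intro z hz
    have := hH z hz
    simp only
    rw [max_eq_right (by linarith)]
    simp
  rw [h0]
  exact ENNReal.ofReal_pos.2 (by positivity)

end Pool.Agent.Results.MP_752436_gt.HyperbolicMeanCurvature
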