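import Pool.Agent.U987.RH.Knot

/-!
# Ribbon discs up to isotopy are the slice discs of mean curvature at most one in hyperbolic space

The half-space `x₃ > 0` of four-space carries the hyperbolic metric `x₃⁻² |dx|²`; the number `1` is
the mean curvature of the horospheres. A slice disc `φ` (`SliceDisc`) is a smoothly embedded disc in
`x₃ ≥ 0` with its boundary, and nothing else, in the hyperplane `x₃ = 0`, transversal to it; `hor φ`
is its projection to three-space and `hypMean φ` the hyperbolic length of its mean curvature vector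
`H` (half of the trace of the second fundamental form). Isotopies (`Isotopic`) are smooth isotopies of
slice discs which do not move the boundary.

1. For every slice disc it is equivalent: it is isotopic to a ribbon disc (the height is a Morse
   function without local minima in the open disc, the definition of Fox and Milnor); it is isotopic
   to a slice disc with `|H| ≤ 1`; it is isotopic to slice discs with `|H| ≤ c < 1` and of arbitrarily
   small height. So a knot is a ribbon knot if and only if it bounds a slice disc with `|H| ≤ 1`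
   (part 5), for instance an embedded minimal disc of hyperbolic space.
2. The number `1` is the sharp threshold: every slice disc is isotopic to slice discs with
   `|H| < 1 + ε`, for every `ε > 0`. (There are slice discs which are not isotopic to ribbon discs, for
   instance sums with suitable knotted 2-spheres; for these the infimum `1` of `sup |H|` over the
   isotopy class is not attained. The slice-ribbon conjecture says that it is attained for some slice
   disc of every slice knot.)
3. Every immersed disc in three-space with ribbon singularities (`RibbonDisc`: the definition of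
   ribbon knots in the problem; after a diffeomorphism of the disc the interior arcs lie on the real
   diameter) is itself the projection of slice discs with `|H| ≤ c < 1`, of arbitrarily small height.
4. A slice disc with `|H| ≤ 1` is itself, after an arbitrarily small vertical isotopy, a ribbon disc.

Main steps. From `|H| ≤ 1` to ribbon: area formula for the lower caps of the Gauss map near the
vertical direction. From ribbon to `|H| < 1`: a nowhere tangent field of vertical speed one along the
disc, its flow (a height-preserving isotopy which makes the projection an immersion), then a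
modification of the height near the saddles (`tr Hess < 0` there), then a concave change of the height
and a vertical squeeze; the order of the heights over the double points of the projection is preserved,
so that the heights can be interpolated.
-/

set_option autoImplicit false

namespace Pool.Agent.Results.MP_752436_gt.HyperbolicRibbonDiscs

open Pool.Agent.U987.RH
open Set Metric

/-- The height, the last coordinate. -/
noncomputable def height (x : E4) : ℝ := x 3

/-- The height is a Morse function without local minima in the open disc. -/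
def Ribbon (φ : ℂ → E4) : Prop :=
  MorseHeight φ ∧ ∀ z ∈ ball (0 : ℂ) 1, ¬ IsLocalMin (fun w => height (φ w)) z

/-- The boundary of `φ` is the curve `γ`. -/
def Bounds (γ φ : ℂ → E4) : Prop := ∀ z ∈ sphere (0 : ℂ) 1, φ z = γ z

theorem result :
    -- (1) isotopy classes of slice discs: ribbon discs, `|H| ≤ 1`, `|H| < 1`
    (∀ φ : ℂ → E4, SliceDisc φ → List.TFAE [
      ∃ ψ : ℂ → E4, Isotopic φ ψ ∧ Ribbon ψ,
      ∃ ψ : ℂ → E4, Isotopic φ ψ ∧ ∀ z ∈ ball (0 : ℂ) 1, hypMean ψ z ≤ 1,
      ∀ ε : ℝ, 0 < ε → ∃ ψ : ℂ → E4, Isotopic φ ψ ∧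
        (∀ z ∈ closedBall (0 : ℂ) 1, height (ψ z) < ε) ∧
        ∃ c < 1, ∀ z ∈ closedBall (0 : ℂ) 1, hypMean ψ z ≤ c]) ∧
    -- (2) all slice discs: `1` is the threshold
    (∀ φ : ℂ → E4, SliceDisc φ → ∀ ε : ℝ, 0 < ε →
      ∃ ψ : ℂ → E4, Isotopic φ ψ ∧ (∀ z ∈ closedBall (0 : ℂ) 1, height (ψ z) < ε) ∧
        ∀ z ∈ closedBall (0 : ℂ) 1, hypMean ψ z < 1 + ε) ∧
    -- (3) immersed discs with ribbon singularities are projections of discs with `|H| < 1`
    (∀ σ : ℂ → E3, RibbonDisc σ → ∀ ε : ℝ, 0 < ε →
      ∃ φ : ℂ → E4, SliceDisc φ ∧ (∀ z, hor (φ z) = σ z) ∧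
        (∀ z ∈ closedBall (0 : ℂ) 1, height (φ z) < ε) ∧
        ∃ c < 1, ∀ z ∈ closedBall (0 : ℂ) 1, hypMean φ z ≤ c) ∧
    -- (4) a slice disc with `|H| ≤ 1` is a ribbon disc after a small vertical isotopy
    (∀ φ : ℂ → E4, SliceDisc φ → (∀ z ∈ ball (0 : ℂ) 1, hypMean φ z ≤ 1) → ∀ ε : ℝ, 0 < ε →
      ∃ ψ : ℂ → E4, IsoStep φ ψ ∧ Ribbon ψ ∧ (∀ z, hor (ψ z) = hor (φ z)) ∧
        ∀ z ∈ closedBall (0 : ℂ) 1, |height (ψ z) - height (φ z)| < ε) ∧
    -- (5) knots: `γ` bounds a ribbon disc if and only if it bounds a slice disc with `|H| ≤ 1`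
    (∀ γ : ℂ → E4, (∃ φ : ℂ → E4, SliceDisc φ ∧ Bounds γ φ ∧ Ribbon φ) ↔
      ∃ φ : ℂ → E4, SliceDisc φ ∧ Bounds γ φ ∧ ∀ z ∈ ball (0 : ℂ) 1, hypMean φ z ≤ 1) ∧
    -- (6) isotopy is an equivalence relation which preserves slice discs and their boundaries
    (Equivalence Isotopic ∧ ∀ φ ψ : ℂ → E4, Isotopic φ ψ →
      (SliceDisc φ → SliceDisc ψ) ∧ ∀ z ∈ sphere (0 : ℂ) 1, ψ z = φ z) := by
  refine ⟨fun φ h => classes h, fun _ h _ hε => slice_curv h hε, fun _ h _ hε => one h hε,
    fun φ h hH ε hε => ?_, fun γ => ⟨?_, ?_⟩, ⟨fun _ => Relation.ReflTransGen.refl,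
      Isotopic.symm, Isotopic.trans⟩, fun φ ψ hi => ⟨fun h => hi.slice h, hi.bdry⟩⟩
  · obtain ⟨ψ, h0, -, h2, -, h4, h5, h6⟩ := two h hH hε
    exact ⟨ψ, h0, ⟨h5, h6⟩, h2, h4⟩
  · rintro ⟨φ, h, hb, hr⟩
    have h01 : (∃ ψ : ℂ → E4, Isotopic φ ψ ∧ MorseHeight ψ ∧
        ∀ z ∈ ball (0 : ℂ) 1, ¬ IsLocalMin (fun w => ψ w 3) z) ↔
      ∃ ψ : ℂ → E4, Isotopic φ ψ ∧ ∀ z ∈ ball (0 : ℂ) 1, hypMean ψ z ≤ 1 := (classes h).out 0 1
    obtain ⟨ψ, h1, h2⟩ := h01.1 ⟨φ, Relation.ReflTransGen.refl, hr.1, hr.2⟩
    exact ⟨ψ, h1.slice h, fun z hz => (h1.bdry z hz).trans (hb z hz), h2⟩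
  · rintro ⟨φ, h, hb, hH⟩
    obtain ⟨ψ, h0, h1, h2, h3, h4, h5, h6⟩ := two h hH one_pos
    exact ⟨ψ, h1, fun z hz => (h3 z hz).trans (hb z hz), h5, h6⟩

end Pool.Agent.Results.MP_752436_gt.HyperbolicRibbonDiscs
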