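import Pool.Agent.U95.SD.Fin

/-!
# Isotopy classes of slice discs: minima, maxima and saddles, and the three total curvatures

We consider smoothly embedded discs `φ` in the half-space `x₃ ≥ 0` of Euclidean four-space, with
boundary in the hyperplane `x₃ = 0` and vertical near the boundary (`HalfDisc`). Two discs are
isotopic (`Isotopic`) if they are joined by a smooth family of such discs with the same boundary.
`nmin`, `nmax`, `nsad` and `ncrit` are the numbers of the local minima, the local maxima, the saddles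
(the other critical points) and of all critical points of the height `x₃` in the interior; `MorseHt`
says that all critical points are nondegenerate. A ribbon disc is a disc with a Morse height and
`nmin = 0` (in the 4-ball: the distance from the centre has no local maximum); the number of its
saddles is the number of bands of the ribbon presentation.

`lowE`, `uppE` and `sadE` are the integrals over the disc and over the unit normal vectors `n` with
`n₃ > 0` of the absolute value of the determinant of the second fundamental form `II_n`, taken where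
`II_n` is positive definite, negative definite, or indefinite (`sadE`, the saddle curvature; new).
The sum of the three is the total absolute curvature with respect to upward normals.

0. Isotopy is an equivalence relation on the discs and preserves the boundary.
1. For every disc `φ` and all weights `a, b, c ≥ 0` there is an isotopic disc `ψ` with a Morse height
   such that `π² (a nmin ψ + b nmax ψ + c nsad ψ) ≤ a lowE φ + b uppE φ + c sadE φ`.
2. For every disc `ψ` with a Morse height and every `η > 0` there is an isotopic disc `φ` such that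
   `lowE φ ≤ π² nmin ψ + η`, `uppE φ ≤ π² nmax ψ + η` and `sadE φ ≤ π² nsad ψ + η`.
3. So, in every isotopy class and for all weights, the infimum of `a lowE + b uppE + c sadE` is `π²`
   times the infimum of `a nmin + b nmax + c nsad` over the discs with a Morse height.
4. An isotopy class contains a disc with a Morse height and at most `N` critical points if and only if
   it contains a disc of total absolute curvature less than `π² (N + 1)`, if and only if the infimum
   of the total absolute curvature is at most `π² N`.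
5. A disc is isotopic to one with a Morse height and at most `m` local minima if and only if it is
   isotopic to a disc with `lowE < π² (m + 1)`; for `m = 0`: to a ribbon disc if and only if to a disc
   with `lowE < π²`.
6. A disc is isotopic to a ribbon disc with at most `s` saddles if and only if it is isotopic to a disc
   with `(s + 1) lowE + sadE < π² (s + 1)`, if and only if it is isotopic to discs with `lowE ≤ η` and
   `sadE ≤ π² s + η` for all `η > 0`.
7. The same for knots `γ` (not mentioning isotopies): `γ` bounds a ribbon disc with at most `s`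
   saddles if and only if it bounds a disc with `(s + 1) lowE + sadE < π² (s + 1)`; and `γ` bounds a
   disc with a Morse height and at most `N` critical points if and only if it bounds a disc of total
   absolute curvature less than `π² (N + 1)`.

The starting hand-in `MP_752436_gt.CurvatureOfRibbonDiscs` (`Pool.Agent.N15.RC`, after
`Pool.Agent.N503.ML` of helper503) has 1, 2, 3 and 5 for the knots, not for the isotopy classes of
discs, and without saddles. New here: the saddle curvature (area formula for the Gauss map at the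
saddles, local uniqueness of nondegenerate critical points, stretching), isotopies, 4, 6 and 7.
-/

set_option autoImplicit false

namespace Pool.Agent.Results.MP_752436_gt.SaddleCurvature

open scoped ENNReal NNReal
open Pool.Agent.N503.ML Pool.Agent.N15.RC Pool.Agent.Y503.RB Pool.Agent.U95.SD
open MeasureTheory Metric

theorem fus (χ : ℂ → E4) (s : ℕ) :
    (∃ ψ : ℂ → E4, Isotopic χ ψ ∧ MorseHt ψ ∧ nmin ψ = 0 ∧ nsad ψ ≤ s) ↔
      ∃ φ : ℂ → E4, Isotopic χ φ ∧
        ((s + 1 : ℕ) : ℝ≥0∞) * lowE φ + sadE φ < ENNReal.ofReal (Real.pi ^ 2 * (s + 1)) :=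
  (tfae_fusion χ s).out 0 1

theorem crt (χ : ℂ → E4) (N : ℕ) :
    (∃ ψ : ℂ → E4, Isotopic χ ψ ∧ MorseHt ψ ∧ ncrit ψ ≤ N) ↔
      ∃ φ : ℂ → E4, Isotopic χ φ ∧
        lowE φ + uppE φ + sadE φ < ENNReal.ofReal (Real.pi ^ 2 * (N + 1)) :=
  (tfae_crit χ N).out 0 1

theorem result :
    -- (0) isotopy of discs
    ((∀ φ, HalfDisc φ → Isotopic φ φ) ∧ (∀ φ ψ, Isotopic φ ψ → Isotopic ψ φ) ∧
      (∀ φ ψ χ, Isotopic φ ψ → Isotopic ψ χ → Isotopic φ χ) ∧
      (∀ φ ψ, Isotopic φ ψ → HalfDisc φ ∧ HalfDisc ψ ∧ ∀ z ∈ sphere (0 : ℂ) 1, ψ z = φ z)) ∧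
    -- (1) from curvature to critical points
    (∀ φ : ℂ → E4, HalfDisc φ → ∀ a b c : ℝ≥0,
      ∃ ψ : ℂ → E4, Isotopic φ ψ ∧ MorseHt ψ ∧
        ENNReal.ofReal (Real.pi ^ 2) *
          (a * (nmin ψ : ℝ≥0∞) + b * (nmax ψ : ℝ≥0∞) + c * (nsad ψ : ℝ≥0∞)) ≤
          a * lowE φ + b * uppE φ + c * sadE φ) ∧
    -- (2) from critical points to curvature
    (∀ ψ : ℂ → E4, HalfDisc ψ → MorseHt ψ → ∀ η : ℝ, 0 < η →
      ∃ φ : ℂ → E4, Isotopic ψ φ ∧
        lowE φ ≤ ENNReal.ofReal (Real.pi ^ 2) * (nmin ψ : ℝ≥0∞) + ENNReal.ofReal η ∧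
        uppE φ ≤ ENNReal.ofReal (Real.pi ^ 2) * (nmax ψ : ℝ≥0∞) + ENNReal.ofReal η ∧
        sadE φ ≤ ENNReal.ofReal (Real.pi ^ 2) * (nsad ψ : ℝ≥0∞) + ENNReal.ofReal η) ∧
    -- (3) equality of the infima in an isotopy class, for all weights
    (∀ (χ : ℂ → E4) (a b c : ℝ≥0),
      ⨅ (φ : ℂ → E4) (_ : Isotopic χ φ),
          ((a : ℝ≥0∞) * lowE φ + b * uppE φ + c * sadE φ) =
        ⨅ (ψ : ℂ → E4) (_ : Isotopic χ ψ ∧ MorseHt ψ),
          ENNReal.ofReal (Real.pi ^ 2) *
            ((a : ℝ≥0∞) * (nmin ψ : ℝ≥0∞) + b * (nmax ψ : ℝ≥0∞) + c * (nsad ψ : ℝ≥0∞))) ∧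
    -- (4) the least number of critical points
    (∀ (χ : ℂ → E4) (N : ℕ), List.TFAE [
      ∃ ψ : ℂ → E4, Isotopic χ ψ ∧ MorseHt ψ ∧ ncrit ψ ≤ N,
      ∃ φ : ℂ → E4, Isotopic χ φ ∧
        lowE φ + uppE φ + sadE φ < ENNReal.ofReal (Real.pi ^ 2 * (N + 1)),
      ∀ η : ℝ, 0 < η → ∃ φ : ℂ → E4, Isotopic χ φ ∧
        lowE φ + uppE φ + sadE φ ≤ ENNReal.ofReal (Real.pi ^ 2 * N + η)]) ∧
    -- (5) the least number of local minima; `m = 0`: ribbon discs
    (∀ (χ : ℂ → E4) (m : ℕ), List.TFAE [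
      ∃ ψ : ℂ → E4, Isotopic χ ψ ∧ MorseHt ψ ∧ nmin ψ ≤ m,
      ∃ φ : ℂ → E4, Isotopic χ φ ∧ lowE φ < ENNReal.ofReal (Real.pi ^ 2 * (m + 1)),
      ∀ η : ℝ, 0 < η → ∃ φ : ℂ → E4, Isotopic χ φ ∧
        lowE φ ≤ ENNReal.ofReal (Real.pi ^ 2 * m + η)]) ∧
    -- (6) ribbon discs with at most `s` saddles
    (∀ (χ : ℂ → E4) (s : ℕ), List.TFAE [
      ∃ ψ : ℂ → E4, Isotopic χ ψ ∧ MorseHt ψ ∧ nmin ψ = 0 ∧ nsad ψ ≤ s,
      ∃ φ : ℂ → E4, Isotopic χ φ ∧
        ((s + 1 : ℕ) : ℝ≥0∞) * lowE φ + sadE φ < ENNReal.ofReal (Real.pi ^ 2 * (s + 1)),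
      ∀ η : ℝ, 0 < η → ∃ φ : ℂ → E4, Isotopic χ φ ∧ lowE φ ≤ ENNReal.ofReal η ∧
        sadE φ ≤ ENNReal.ofReal (Real.pi ^ 2 * s + η)]) ∧
    -- (7) knots
    (∀ (γ : ℂ → E4) (s : ℕ),
      (∃ ψ : ℂ → E4, HalfDisc ψ ∧ (∀ z ∈ sphere (0 : ℂ) 1, ψ z = γ z) ∧ MorseHt ψ ∧
        nmin ψ = 0 ∧ nsad ψ ≤ s) ↔
      ∃ φ : ℂ → E4, HalfDisc φ ∧ (∀ z ∈ sphere (0 : ℂ) 1, φ z = γ z) ∧
        ((s + 1 : ℕ) : ℝ≥0∞) * lowE φ + sadE φ < ENNReal.ofReal (Real.pi ^ 2 * (s + 1))) ∧
    (∀ (γ : ℂ → E4) (N : ℕ),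
      (∃ ψ : ℂ → E4, HalfDisc ψ ∧ (∀ z ∈ sphere (0 : ℂ) 1, ψ z = γ z) ∧ MorseHt ψ ∧
        ncrit ψ ≤ N) ↔
      ∃ φ : ℂ → E4, HalfDisc φ ∧ (∀ z ∈ sphere (0 : ℂ) 1, φ z = γ z) ∧
        lowE φ + uppE φ + sadE φ < ENNReal.ofReal (Real.pi ^ 2 * (N + 1))) := by
  refine ⟨⟨fun _ h => Isotopic.refl h, fun _ _ h => h.symm, fun _ _ _ h h' => h.trans h',
    fun _ _ h => ⟨h.left, h.right, h.sphere⟩⟩, fun _ h a b c => crit_of_curv h a b c,
    fun _ h hM _ hη => curv_of_crit h hM hη, inf_eq, tfae_crit, tfae_min, tfae_fusion, ?_, ?_⟩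
  · intro γ s
    constructor
    · rintro ⟨ψ, h1, h2, h3, h4, h5⟩
      obtain ⟨φ, a1, a2⟩ := (fus ψ s).1 ⟨ψ, Isotopic.refl h1, h3, h4, h5⟩
      exact ⟨φ, a1.right, fun z hz => (a1.sphere z hz).trans (h2 z hz), a2⟩
    · rintro ⟨φ, h1, h2, h3⟩
      obtain ⟨ψ, a1, a2, a3, a4⟩ := (fus φ s).2 ⟨φ, Isotopic.refl h1, h3⟩
      exact ⟨ψ, a1.right, fun z hz => (a1.sphere z hz).trans (h2 z hz), a2, a3, a4⟩
  · intro γ N
    constructor
    · rintro ⟨ψ, h1, h2, h3, h4⟩
      obtain ⟨φ, a1, a2⟩ := (crt ψ N).1 ⟨ψ, Isotopic.refl h1, h3, h4⟩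
      exact ⟨φ, a1.right, fun z hz => (a1.sphere z hz).trans (h2 z hz), a2⟩
    · rintro ⟨φ, h1, h2, h3⟩
      obtain ⟨ψ, a1, a2, a3⟩ := (crt φ N).2 ⟨φ, Isotopic.refl h1, h3⟩
      exact ⟨ψ, a1.right, fun z hz => (a1.sphere z hz).trans (h2 z hz), a2, a3⟩

end Pool.Agent.Results.MP_752436_gt.SaddleCurvature
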